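import Pool.Agent.R110.MT.Sym
import Pool.Agent.R110.MT.Good2

/-!
# The monotone triangle polynomial at a prefix-repeated bottom row

For all `0 ≤ i ≤ n` the monotone triangle polynomial `α (n + i; ·)` takes the value `A_n` at the row
`(1, ..., i, 1, ..., n)`.

Idea of proof. The functional `α` satisfies a quadratic relation for two and a cubic relation for
three neighbouring letters, in every context. In the algebra defined by these relations the right
module generated by the increasing run `R = T_0 ... T_n` satisfies the relations with
`T_(n+1) = 0`; this gives `R R = Ω` where `Ω = T_n T_n ... T_0 T_0`, and the words `Ω R'` are known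
to have the value `A_n`.
-/

namespace Pool.Agent.Results.MP_eb4e27_co.PrefixRepeated

open Pool.Agent.R110.MT (IsAlpha mtc)

/-- the row `(1, ..., i, 1, ..., n)` -/
def row (n i : ℕ) (j : Fin (n + i)) : ℤ := if (j : ℕ) < i then (j : ℤ) + 1 else (j : ℤ) - i + 1

theorem result (n i : ℕ) (hi : i ≤ n) :
    ∃ P : MvPolynomial (Fin (n + i)) ℚ, IsAlpha (n + i) P ∧
      (∀ P' : MvPolynomial (Fin (n + i)) ℚ, IsAlpha (n + i) P' → P' = P) ∧
      MvPolynomial.eval (fun j : Fin (n + i) => (row n i j : ℚ)) P =
        mtc n (fun j : Fin n => (j : ℤ) + 1) := by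
  open Pool.Agent.R110.MT in
  obtain ⟨P, hP, -⟩ := exists_alpha (n + i)
  refine ⟨P, hP, fun P' hP' => hP.unique hP', ?_⟩
  obtain ⟨r, rfl⟩ : ∃ r, n = i + r := ⟨n - i, by omega⟩
  have h1 := hP.eval (fun j : Fin (i + r + i) => if (j : ℕ) < i then (j : ℕ) + 1 else j - i + 1)
  have h2 : List.ofFn (fun j : Fin (i + r + i) =>
      if (j : ℕ) < i then (j : ℕ) + 1 else j - i + 1) =
      List.map (fun x : ℕ => x + 1) (List.range' 0 i ++ List.range' 0 (i + r)) := by
    apply List.ext_getElem
    · simp only [List.length_ofFn, List.length_map, List.length_append, List.length_range']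
      ring
    · intro j hj hj'
      rw [List.getElem_ofFn, List.getElem_map, List.getElem_append]
      simp only [List.length_range', List.getElem_range']
      split_ifs <;> omega
  have h3 : MvPolynomial.eval (fun j => (row (i + r) i j : ℚ)) P =
      al 0 (List.map (fun x : ℕ => x + 1) (List.range' 0 i ++ List.range' 0 (i + r))) := by
    rw [← h2, ← h1]
    congr 2
    funext j
    simp only [row]
    split_ifs with h4
    · push_cast; ring
    · push_cast [Nat.cast_sub (show i ≤ (j : ℕ) by omega)]
      ring
  have h5 := al_omw 0 i r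
  rw [zero_add] at h5
  have h6 : List.range' 1 (i + r) = List.map (fun x : ℕ => x + 1) (List.range' 0 (i + r)) := by
    apply List.ext_getElem
    · simp
    · intro j hj hj'
      simp
      ring
  rw [h3, al_trans, al_of_wd 0 (rel_TT.rn_mul i r), h5, ← al_range, h6, al_trans]

end Pool.Agent.Results.MP_eb4e27_co.PrefixRepeated
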